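import Pool.Agent.Work.MP_2738db_nt_Y.Interface

/-!
# BEZ: coprime polynomials in two variables have few common zeros
-/

set_option autoImplicit false

namespace Pool.Agent.Work.MP_2738db_nt_Y.helper50

open Finset Polynomial

/-! ### Gauss lemma for relatively prime polynomials -/

theorem isCoprime_map {A B : ℚ[X][X]} (h : IsRelPrime A B) :
    IsCoprime (A.map (algebraMap ℚ[X] (FractionRing ℚ[X])))
      (B.map (algebraMap ℚ[X] (FractionRing ℚ[X]))) := by
  refine IsRelPrime.isCoprime ?_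
  intro d hA hB
  have hd : d ≠ 0 := by
    rintro rfl
    rw [zero_dvd_iff] at hA hB
    have hi := map_injective _ (IsFractionRing.injective ℚ[X] (FractionRing ℚ[X]))
    have h1 : A = 0 := hi (by rw [hA, Polynomial.map_zero])
    have h2 : B = 0 := hi (by rw [hB, Polynomial.map_zero])
    have h3 := h (show (0 : ℚ[X][X]) ∣ A by rw [h1]) (show (0 : ℚ[X][X]) ∣ B by rw [h2])
    exact not_isUnit_zero h3
  obtain ⟨b, hb, he⟩ := IsLocalization.integerNormalization_spec (nonZeroDivisors ℚ[X]) d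
  set e := IsLocalization.integerNormalization (nonZeroDivisors ℚ[X]) d with hedef
  have hb0 : algebraMap ℚ[X] (FractionRing ℚ[X]) b ≠ 0 := by
    rw [ne_eq, IsFractionRing.to_map_eq_zero_iff]
    exact nonZeroDivisors.ne_zero hb
  have he' : e.map (algebraMap ℚ[X] (FractionRing ℚ[X])) =
      C (algebraMap ℚ[X] (FractionRing ℚ[X]) b) * d := by
    rw [he, ← smul_eq_C_mul]
    ext i
    simp [Algebra.smul_def]
  have hCb : IsUnit (C (algebraMap ℚ[X] (FractionRing ℚ[X]) b)) :=
    isUnit_C.2 (isUnit_iff_ne_zero.2 hb0)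
  have he0 : e ≠ 0 := by
    intro h0
    rw [h0, Polynomial.map_zero] at he'
    rcases mul_eq_zero.1 he'.symm with h1 | h1
    · exact hCb.ne_zero h1
    · exact hd h1
  have hc0 : algebraMap ℚ[X] (FractionRing ℚ[X]) e.content ≠ 0 := by
    rw [ne_eq, IsFractionRing.to_map_eq_zero_iff, content_eq_zero_iff]
    exact he0
  have hprod : e.map (algebraMap ℚ[X] (FractionRing ℚ[X])) =
      C (algebraMap ℚ[X] (FractionRing ℚ[X]) e.content) *
        e.primPart.map (algebraMap ℚ[X] (FractionRing ℚ[X])) := by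
    conv_lhs => rw [e.eq_C_content_mul_primPart]
    rw [Polynomial.map_mul, map_C]
  have hdvd : e.primPart.map (algebraMap ℚ[X] (FractionRing ℚ[X])) ∣ d := by
    have h1 : e.primPart.map (algebraMap ℚ[X] (FractionRing ℚ[X])) ∣
        C (algebraMap ℚ[X] (FractionRing ℚ[X]) b) * d := by
      rw [← he', hprod]
      exact dvd_mul_left _ _
    exact (hCb.dvd_mul_left).1 h1
  have hu : IsUnit e.primPart := h
    (e.isPrimitive_primPart.dvd_of_fraction_map_dvd_fraction_map (hdvd.trans hA))
    (e.isPrimitive_primPart.dvd_of_fraction_map_dvd_fraction_map (hdvd.trans hB))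
  have h2 : IsUnit (C (algebraMap ℚ[X] (FractionRing ℚ[X]) b) * d) := by
    rw [← he', hprod]
    exact (isUnit_C.2 (isUnit_iff_ne_zero.2 hc0)).mul
      (hu.map (mapRingHom (algebraMap ℚ[X] (FractionRing ℚ[X]))))
  exact isUnit_of_mul_isUnit_right h2

theorem resultant_ne {A B : ℚ[X][X]} (h : IsRelPrime A B) : resultant A B ≠ 0 := by
  intro h0
  have hi := IsFractionRing.injective ℚ[X] (FractionRing ℚ[X])
  have h1 := resultant_map_map A B A.natDegree B.natDegree
    (algebraMap ℚ[X] (FractionRing ℚ[X]))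
  rw [h0, map_zero] at h1
  have h2 := isCoprime_map h
  have h3 : resultant (A.map (algebraMap ℚ[X] (FractionRing ℚ[X])))
      (B.map (algebraMap ℚ[X] (FractionRing ℚ[X]))) = 0 := by
    rw [natDegree_map_eq_of_injective hi, natDegree_map_eq_of_injective hi]
    exact h1
  exact (resultant_eq_zero_iff.1 h3).2 h2

/-! ### Degrees -/

/-- outer degree at most `m`, inner degrees at most `d` -/
def BD (m d : ℕ) (A : ℚ[X][X]) : Prop := A.natDegree ≤ m ∧ ∀ i, (A.coeff i).natDegree ≤ d

theorem BD.mono {m d m' d' : ℕ} {A : ℚ[X][X]} (h : BD m d A) (hm : m ≤ m') (hd : d ≤ d') :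
    BD m' d' A := ⟨h.1.trans hm, fun i => (h.2 i).trans hd⟩

theorem BD.mul {m d m' d' : ℕ} {A B : ℚ[X][X]} (hA : BD m d A) (hB : BD m' d' B) :
    BD (m + m') (d + d') (A * B) := by
  refine ⟨natDegree_mul_le.trans (add_le_add hA.1 hB.1), fun i => ?_⟩
  rw [coeff_mul]
  refine natDegree_sum_le_of_forall_le _ _ fun x _ => ?_
  exact natDegree_mul_le.trans (add_le_add (hA.2 _) (hB.2 _))

theorem BD.pow {m d : ℕ} {A : ℚ[X][X]} (hA : BD m d A) (j : ℕ) : BD (j * m) (j * d) (A ^ j) := by
  induction j with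
  | zero =>
    refine ⟨by simp, fun i => ?_⟩
    rw [pow_zero, coeff_one]
    split_ifs <;> simp
  | succ j ih =>
    rw [pow_succ, Nat.succ_mul, Nat.succ_mul]
    exact ih.mul hA

theorem BD.sum {ι : Type} {m d : ℕ} (s : Finset ι) (f : ι → ℚ[X][X])
    (h : ∀ i ∈ s, BD m d (f i)) : BD m d (∑ i ∈ s, f i) := by
  refine ⟨natDegree_sum_le_of_forall_le _ _ fun i hi => (h i hi).1, fun k => ?_⟩
  rw [finsetSum_coeff]
  exact natDegree_sum_le_of_forall_le _ _ fun i hi => (h i hi).2 k

theorem BD.C_C (c : ℚ) : BD 0 0 (C (C c)) := by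
  refine ⟨by simp, fun i => ?_⟩
  rw [coeff_C]
  split_ifs <;> simp

theorem BD.X : BD 1 0 (X : ℚ[X][X]) := by
  refine ⟨natDegree_X_le, fun i => ?_⟩
  rw [coeff_X]
  split_ifs <;> simp

/-- the linear polynomial `u - t x` -/
noncomputable def lin (t : ℚ) : ℚ[X][X] := C X - C (C t) * X

theorem BD.lin (t : ℚ) : BD 1 1 (lin t) := by
  unfold helper50.lin
  refine ⟨?_, fun i => ?_⟩
  · refine (natDegree_sub_le _ _).trans (max_le (by simp) ?_)
    exact (natDegree_C_mul_le _ _).trans natDegree_X_le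
  · rw [coeff_sub, coeff_C, coeff_C_mul, coeff_X]
    refine (natDegree_sub_le _ _).trans (max_le ?_ ?_)
    · split_ifs <;> simp
    · split_ifs <;> simp

/-! ### The shear -/

/-- the inner part of the shear -/
noncomputable def al (t : ℚ) : ℚ[X] →+* ℚ[X][X] := eval₂RingHom (C.comp C) (lin t)

/-- `P(x, y)` becomes `P(x, u - t x)` -/
noncomputable def sh (t : ℚ) : ℚ[X][X] →+* ℚ[X][X] := eval₂RingHom (al t) X

theorem BD.al {D : ℕ} (t : ℚ) {c : ℚ[X]} (h : c.natDegree ≤ D) : BD D D (al t c) := by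
  have h1 : helper50.al t c = ∑ j ∈ range (c.natDegree + 1), C (C (c.coeff j)) * helper50.lin t ^ j := by
    unfold helper50.al
    rw [coe_eval₂RingHom, eval₂_eq_sum_range]
    rfl
  rw [h1]
  refine BD.sum _ _ fun j hj => ?_
  have h2 := mem_range.1 hj
  exact ((BD.C_C _).mul ((BD.lin t).pow j)).mono (by omega) (by omega)

theorem BD.sh {D : ℕ} (t : ℚ) {P : ℚ[X][X]} (h : BiDeg D P) : BD (2 * D) D (sh t P) := by
  have h1 : helper50.sh t P = ∑ j ∈ range (P.natDegree + 1), helper50.al t (P.coeff j) * Polynomial.X ^ j := by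
    unfold helper50.sh
    rw [coe_eval₂RingHom, eval₂_eq_sum_range]
  rw [h1]
  refine BD.sum _ _ fun j hj => ?_
  have h2 := mem_range.1 hj
  have h3 := h.1
  exact ((BD.al t (h.2 j)).mul (BD.X.pow j)).mono (by omega) (by omega)

theorem sh_C (t : ℚ) (c : ℚ[X]) : sh t (C c) = al t c := by
  simp [sh]

theorem sh_X (t : ℚ) : sh t X = X := by
  simp [sh]

theorem al_C (t c : ℚ) : al t (C c) = C (C c) := by
  simp [al]

theorem al_X (t : ℚ) : al t X = lin t := by
  simp [al]

theorem sh_sh (t : ℚ) (P : ℚ[X][X]) : sh (-t) (sh t P) = P := by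
  have h : (sh (-t)).comp (sh t) = RingHom.id _ := by
    refine Polynomial.ringHom_ext' ?_ ?_
    · refine Polynomial.ringHom_ext' ?_ ?_
      · ext c
        simp [sh_C, al_C]
      · simp only [RingHom.comp_apply, RingHom.id_apply, sh_C, al_X, lin, map_sub, map_mul, al_C,
          sh_X, map_neg]
        ring
    · simp [sh_X]
  exact congrArg (fun f => f P) h

theorem ev_sh (t x u : ℚ) (P : ℚ[X][X]) : ev x u (sh t P) = ev x (u - t * x) P := by
  have key : ((evalRingHom u).comp ((evalRingHom (C x)).comp (sh t))) =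
      (evalRingHom (u - t * x)).comp (evalRingHom (C x)) := by
    refine Polynomial.ringHom_ext' ?_ ?_
    · refine Polynomial.ringHom_ext' ?_ ?_
      · exact RingHom.ext fun c => by simp
      · simp [sh_C, al_X, lin]
    · simp [sh_X]
  exact congrArg (fun f => f P) key

theorem isRelPrime_sh (t : ℚ) {P G : ℚ[X][X]} (h : IsRelPrime P G) :
    IsRelPrime (sh t P) (sh t G) := by
  intro d hP hG
  have h1 := map_dvd (sh (-t)) hP
  have h2 := map_dvd (sh (-t)) hG
  rw [sh_sh] at h1 h2
  have h3 := (h h1 h2).map (sh t)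
  have h4 := sh_sh (-t) d
  rw [neg_neg] at h4
  rwa [h4] at h3

/-! ### The degree of the resultant -/

theorem natDegree_det_le {n : ℕ} (M : Matrix (Fin n) (Fin n) ℚ[X]) (d : ℕ)
    (h : ∀ i j, (M i j).natDegree ≤ d) : M.det.natDegree ≤ n * d := by
  rw [Matrix.det_apply]
  refine natDegree_sum_le_of_forall_le _ _ fun σ _ => ?_
  have h1 : (∏ i, M (σ i) i).natDegree ≤ n * d := by
    refine (natDegree_prod_le _ _).trans ?_
    refine (sum_le_card_nsmul _ _ d fun i _ => h _ _).trans ?_
    simp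
  rcases Int.units_eq_one_or (Equiv.Perm.sign σ) with h2 | h2
  · rw [h2, one_smul]
    exact h1
  · rw [h2, Units.neg_smul, one_smul, natDegree_neg]
    exact h1

theorem natDegree_resultant_le {A B : ℚ[X][X]} {D : ℕ} (hA : BD (2 * D) D A)
    (hB : BD (2 * D) D B) : (resultant A B).natDegree ≤ 4 * D ^ 2 := by
  unfold resultant
  refine (natDegree_det_le _ D fun i j => ?_).trans ?_
  · unfold sylvester
    rw [Matrix.of_apply]
    refine Fin.addCases (fun j₁ => ?_) (fun j₁ => ?_) j
    · rw [Fin.addCases_left]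
      split_ifs
      · exact hB.2 _
      · simp
    · rw [Fin.addCases_right]
      split_ifs
      · exact hA.2 _
      · simp
  · have h1 := hA.1
    have h2 := hB.1
    calc (A.natDegree + B.natDegree) * D ≤ (2 * D + 2 * D) * D := by gcongr
      _ = 4 * D ^ 2 := by ring

theorem eval_resultant {A B : ℚ[X][X]} (h : IsRelPrime A B) {x u : ℚ} (hA : ev x u A = 0)
    (hB : ev x u B = 0) : (resultant A B).eval u = 0 := by
  by_cases h0 : A.natDegree ≠ 0 ∨ B.natDegree ≠ 0
  · obtain ⟨p, q, _, _, hpq⟩ := exists_mul_add_mul_eq_C_resultant A B le_rfl le_rfl h0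
    have h1 := congrArg (fun P => ev x u P) hpq
    unfold ev at h1 hA hB
    simp only [eval_add, eval_mul, eval_C, hA, hB, zero_mul, add_zero] at h1
    exact h1.symm
  · exfalso
    push Not at h0
    obtain ⟨a, ha⟩ := natDegree_eq_zero.1 h0.1
    obtain ⟨b, hb⟩ := natDegree_eq_zero.1 h0.2
    have hab : IsRelPrime a b := by
      intro d h1 h2
      have h3 := h (d := C d) (by rw [← ha]; exact map_dvd C h1) (by rw [← hb]; exact map_dvd C h2)
      exact isUnit_C.1 h3
    obtain ⟨p, q, hpq⟩ := hab.isCoprime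
    have h1 := congrArg (eval u) hpq
    unfold ev at hA hB
    rw [← ha, eval_C] at hA
    rw [← hb, eval_C] at hB
    simp [hA, hB] at h1

theorem exists_slope (S : Finset (ℚ × ℚ)) :
    ∃ t : ℚ, Set.InjOn (fun s : ℚ × ℚ => s.2 + t * s.1) (S : Set (ℚ × ℚ)) := by
  classical
  obtain ⟨t, ht⟩ := Infinite.exists_notMem_finset
    ((S ×ˢ S).image fun p => (p.2.2 - p.1.2) / (p.1.1 - p.2.1))
  refine ⟨t, ?_⟩
  intro s hs s' hs' h
  simp only at h
  by_cases hx : s.1 = s'.1
  · rw [hx] at h
    exact Prod.ext hx (add_right_cancel h)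
  · exfalso
    apply ht
    rw [mem_image]
    refine ⟨(s, s'), mem_product.2 ⟨hs, hs'⟩, ?_⟩
    have h1 : s.1 - s'.1 ≠ 0 := sub_ne_zero.2 hx
    simp only
    rw [div_eq_iff h1]
    linear_combination -h

/-- **BEZ**: coprime polynomials have few common zeros. -/
theorem bez : Stmt_Bez := by
  classical
  intro P G D S hP hG hPG hS
  obtain ⟨t, ht⟩ := exists_slope S
  have hrel := isRelPrime_sh t hPG
  have hne := resultant_ne hrel
  have h1 : (S.image fun s : ℚ × ℚ => s.2 + t * s.1) ⊆
      (resultant (sh t P) (sh t G)).roots.toFinset := by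
    intro u hu
    obtain ⟨s, hs, rfl⟩ := mem_image.1 hu
    rw [Multiset.mem_toFinset, mem_roots hne, IsRoot.def]
    refine eval_resultant hrel (x := s.1) ?_ ?_
    · rw [ev_sh, add_sub_cancel_right]
      exact (hS s hs).1
    · rw [ev_sh, add_sub_cancel_right]
      exact (hS s hs).2
  have h2 := card_le_card h1
  rw [card_image_of_injOn ht] at h2
  have h3 := Multiset.toFinset_card_le (resultant (sh t P) (sh t G)).roots
  have h4 := card_roots' (resultant (sh t P) (sh t G))
  have h5 := natDegree_resultant_le (BD.sh t hP) (BD.sh t hG)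
  omega

end Pool.Agent.Work.MP_2738db_nt_Y.helper50
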