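import Pool.Agent.Work.MP_2738db_nt_Y_helper87.IDP

/-!
Theorem Y, phase 5, block ID8: the ideals `(x - ζ ^ j Y)` if `x ^ 4 + Y ^ 4 = c ^ k`.
-/

set_option autoImplicit false

namespace Pool.Agent.Work.MP_2738db_nt_Y.helper50

open Finset NumberField

variable {K : Type} [Field K]

/-- `c` is odd -/
lemma id8_odd {x Y : ℤ} {c k : ℕ} (hxY : IsCoprime x Y) (hk : 2 ≤ k)
    (h : x ^ 4 + Y ^ 4 = (c : ℤ) ^ k) : Odd c := by
  by_contra hc
  rw [Nat.not_odd_iff_even] at hc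
  obtain ⟨e, he⟩ := hc
  have h4 : (4 : ℤ) ∣ x ^ 4 + Y ^ 4 := by
    rw [h]
    have h1 : (4 : ℤ) ∣ (c : ℤ) ^ 2 := ⟨(e : ℤ) ^ 2, by rw [he]; push_cast; ring⟩
    exact h1.trans (pow_dvd_pow _ hk)
  have hsq : ∀ a : ℤ, (a % 2 = 0 ∧ (a ^ 4) % 4 = 0) ∨ (a % 2 = 1 ∧ (a ^ 4) % 4 = 1) := by
    intro a
    rcases Int.even_or_odd' a with ⟨b, hb | hb⟩
    · left
      refine ⟨by omega, ?_⟩
      have : a ^ 4 = 4 * (4 * b ^ 4) := by rw [hb]; ring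
      omega
    · right
      refine ⟨by omega, ?_⟩
      have : a ^ 4 = 4 * (4 * b ^ 4 + 8 * b ^ 3 + 6 * b ^ 2 + 2 * b) + 1 := by rw [hb]; ring
      omega
  rcases hsq x with ⟨h1, h2⟩ | ⟨h1, h2⟩ <;> rcases hsq Y with ⟨h3, h5⟩ | ⟨h3, h5⟩
  · have h6 := hxY.isUnit_of_dvd' (show (2 : ℤ) ∣ x by omega) (show (2 : ℤ) ∣ Y by omega)
    rw [Int.isUnit_iff] at h6
    omega
  · omega
  · omega
  · omega

/-- a prime ideal does not contain two coprime integers -/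
lemma id8_coprime {a b : ℤ} (h : IsCoprime a b) (P : Ideal (𝓞 K)) (hP : P.IsPrime)
    (ha : (a : 𝓞 K) ∈ P) (hb : (b : 𝓞 K) ∈ P) : False := by
  obtain ⟨u, v, huv⟩ := h
  apply hP.ne_top
  rw [Ideal.eq_top_iff_one]
  have h5 : (1 : 𝓞 K) = (u : 𝓞 K) * a + (v : 𝓞 K) * b := by
    have : ((u * a + v * b : ℤ) : 𝓞 K) = ((1 : ℤ) : 𝓞 K) := by rw [huv]
    push_cast at this
    exact this.symm
  rw [h5]
  exact P.add_mem (P.mul_mem_left _ ha) (P.mul_mem_left _ hb)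

/-- Block ID8. -/
theorem id8 : Stmt_Id8 := by
  intro K _ _ ζ x Y c k j hζ hxY hc hk heq hj
  have hodd := id8_odd hxY hk heq
  obtain ⟨μ, hμ⟩ : ∃ μ : 𝓞 K, μ = ζ ^ j := ⟨_, rfl⟩
  rw [← hμ]
  have hj8 : j.Coprime 8 := by
    have : Nat.Coprime j (2 ^ 3) := Nat.Coprime.pow_right 3 (Nat.coprime_two_right.2 hj)
    exact this
  have hμ8 : IsPrimitiveRoot μ 8 := by
    rw [hμ]
    exact hζ.pow_of_coprime j hj8
  have hμ4 : μ ^ 4 = -1 := by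
    have h1 : (μ ^ 4 - 1) * (μ ^ 4 + 1) = 0 := by
      have h2 := hμ8.pow_eq_one
      calc (μ ^ 4 - 1) * (μ ^ 4 + 1) = μ ^ 8 - 1 := by ring
        _ = 0 := by rw [h2, sub_self]
    rcases mul_eq_zero.1 h1 with h2 | h2
    · exact absurd (sub_eq_zero.1 h2) (hμ8.pow_ne_one_of_pos_of_lt (by norm_num) (by norm_num))
    · exact eq_neg_of_add_eq_zero_left h2
  obtain ⟨W, hW⟩ : ∃ W : 𝓞 K, W = (x : 𝓞 K) ^ 3 + (x : 𝓞 K) ^ 2 * (μ * Y) +
    (x : 𝓞 K) * (μ * Y) ^ 2 + (μ * Y) ^ 3 := ⟨_, rfl⟩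
  have heq1 : (x : 𝓞 K) ^ 4 + (Y : 𝓞 K) ^ 4 = (c : 𝓞 K) ^ k := by
    have := congrArg (fun t : ℤ => (t : 𝓞 K)) heq
    push_cast at this
    exact this
  have hprod : ((x : 𝓞 K) - μ * Y) * W = (c : 𝓞 K) ^ k := by
    rw [← heq1, hW]
    linear_combination (-(Y : 𝓞 K) ^ 4) * hμ4
  -- no prime above `2` contains `x - μ Y`
  have h2P : ∀ P : Ideal (𝓞 K), P.IsPrime → (x : 𝓞 K) - μ * Y ∈ P → (2 : 𝓞 K) ∈ P → False := by
    intro P hP h1 h2
    have h3 : (c : 𝓞 K) ∈ P := by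
      have h4 := P.mul_mem_right W h1
      rw [hprod] at h4
      exact hP.mem_of_pow_mem k h4
    have hcop : IsCoprime (2 : ℤ) (c : ℤ) := by
      have : Nat.Coprime 2 c := Nat.coprime_two_left.2 hodd
      exact_mod_cast Nat.isCoprime_iff_coprime.2 this
    refine id8_coprime hcop P hP ?_ ?_
    · push_cast
      exact h2
    · push_cast
      exact h3
  have hcop : ∀ P : Ideal (𝓞 K), P.IsPrime → (x : 𝓞 K) - μ * Y ∈ P → W ∈ P → False := by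
    intro P hP h1 h2
    have h3 : (4 : 𝓞 K) * (μ * Y) ^ 3 ∈ P := by
      have e : (4 : 𝓞 K) * (μ * Y) ^ 3 = W - ((x : 𝓞 K) ^ 2 + 2 * (x : 𝓞 K) * (μ * Y) +
          3 * (μ * Y) ^ 2) * ((x : 𝓞 K) - μ * Y) := by
        rw [hW]
        ring
      rw [e]
      exact P.sub_mem h2 (P.mul_mem_left _ h1)
    rcases hP.mem_or_mem h3 with h4 | h4
    · have h5 : (2 : 𝓞 K) ^ 2 ∈ P := by
        have e : (2 : 𝓞 K) ^ 2 = 4 := by norm_num
        rw [e]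
        exact h4
      exact h2P P hP h1 (hP.mem_of_pow_mem 2 h5)
    · have h5 := hP.mem_of_pow_mem 3 h4
      rcases hP.mem_or_mem h5 with h6 | h6
      · apply hP.ne_top
        rw [Ideal.eq_top_iff_one]
        have e : (1 : 𝓞 K) = -(μ ^ 3) * μ := by
          calc (1 : 𝓞 K) = -(-1) := by ring
            _ = -(μ ^ 4) := by rw [hμ4]
            _ = -(μ ^ 3) * μ := by ring
        rw [e]
        exact P.mul_mem_left _ h6
      · refine id8_coprime hxY P hP ?_ h6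
        have := P.add_mem h1 (P.mul_mem_left μ h6)
        have e : (x : 𝓞 K) - μ * Y + μ * Y = x := by ring
        rwa [e] at this
  obtain ⟨𝔞, ha, hac⟩ := helper87.core ((x : 𝓞 K) - μ * (Y : 𝓞 K)) W c k (by omega) hc (Or.inl hprod) hcop
  refine ⟨𝔞, ha, hac, ?_⟩
  intro P hP hle h8
  have h1 : (x : 𝓞 K) - μ * Y ∈ P := by
    have h2 : (x : 𝓞 K) - μ * Y ∈ 𝔞 ^ k := by
      rw [← ha]
      exact Ideal.mem_span_singleton_self _
    exact hle (Ideal.pow_le_self (by omega) h2)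
  refine h2P P hP h1 (hP.mem_of_pow_mem 3 ?_)
  have e : (2 : 𝓞 K) ^ 3 = 8 := by norm_num
  rw [e]
  exact h8

end Pool.Agent.Work.MP_2738db_nt_Y.helper50
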